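import Pool.Agent.BOX.StmtsG

set_option autoImplicit false

namespace Pool.Agent.BOX.H80

open Set Filter Topology MeasureTheory

noncomputable section

variable {N : ℕ}

theorem w2_wt : Wt (w2 : (Fin N → ℤ) → ℝ) := by
  constructor
  · intro g
    unfold w2
    have h : 0 ≤ ∑ i, |(g i : ℝ)| := Finset.sum_nonneg fun i _ => abs_nonneg _
    nlinarith
  · intro g h
    unfold w2
    rw [← mul_pow]
    have hg : 0 ≤ ∑ i, |(g i : ℝ)| := Finset.sum_nonneg fun i _ => abs_nonneg _
    have hh : 0 ≤ ∑ i, |(h i : ℝ)| := Finset.sum_nonneg fun i _ => abs_nonneg _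
    have hgh : 0 ≤ ∑ i, |(((g + h) i : ℤ) : ℝ)| := Finset.sum_nonneg fun i _ => abs_nonneg _
    have hle : ∑ i, |(((g + h) i : ℤ) : ℝ)| ≤ ∑ i, |(g i : ℝ)| + ∑ i, |(h i : ℝ)| := by
      rw [← Finset.sum_add_distrib]
      refine Finset.sum_le_sum fun i _ => ?_
      rw [Pi.add_apply, Int.cast_add]
      exact abs_add_le _ _
    apply pow_le_pow_left₀ (by linarith)
    nlinarith [mul_nonneg hg hh]

theorem frq_sq (l : Fin N → ℝ) (k : Fin N → ℤ) :
    frq l k ^ 2 = ∑ i, (Real.pi * k i / l i) ^ 2 := by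
  unfold frq
  exact Real.sq_sqrt (Finset.sum_nonneg fun i _ => sq_nonneg _)

theorem frq_low (l : Fin N → ℝ) (hl : ∀ i, 0 < l i) (k : Fin N → ℤ) (hk : k ≠ 0) :
    0 < ∑ j, l j ∧ 1 / (∑ j, l j) ≤ frq l k := by
  obtain ⟨i, hi⟩ := Function.ne_iff.1 hk
  have hi' : k i ≠ 0 := hi
  have hL : l i ≤ ∑ j, l j :=
    Finset.single_le_sum (f := l) (fun j _ => (hl j).le) (Finset.mem_univ i)
  have hL0 : 0 < ∑ j, l j := (hl i).trans_le hL
  refine ⟨hL0, ?_⟩
  unfold frq
  have h1 : (Real.pi * k i / l i) ^ 2 ≤ ∑ j, (Real.pi * k j / l j) ^ 2 :=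
    Finset.single_le_sum (f := fun j => (Real.pi * k j / l j) ^ 2) (fun j _ => sq_nonneg _)
      (Finset.mem_univ i)
  have hki : (1 : ℝ) ≤ |(k i : ℝ)| := by
    have := Int.one_le_abs hi'
    exact_mod_cast this
  apply Real.le_sqrt_of_sq_le
  refine le_trans ?_ h1
  rw [← sq_abs (Real.pi * k i / l i), abs_div, abs_mul, abs_of_pos Real.pi_pos,
    abs_of_pos (hl i)]
  apply pow_le_pow_left₀ (by positivity)
  rw [div_le_div_iff₀ hL0 (hl i), one_mul]
  have h3 := Real.pi_gt_three
  have h4 : (1 : ℝ) ≤ Real.pi * |(k i : ℝ)| := by nlinarith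
  nlinarith [hl i]

theorem frq_pos (l : Fin N → ℝ) (hl : ∀ i, 0 < l i) (k : Fin N → ℤ) (hk : k ≠ 0) :
    0 < frq l k := by
  obtain ⟨h1, h2⟩ := frq_low l hl k hk
  exact (by positivity : 0 < 1 / (∑ j, l j)).trans_le h2

theorem frq_zero (l : Fin N → ℝ) : frq l 0 = 0 := by
  unfold frq
  simp

theorem frq_le (l : Fin N → ℝ) (k : Fin N → ℤ) :
    frq l k ≤ Real.sqrt (∑ i, (Real.pi / l i) ^ 2) * w2 k := by
  have hw : 1 ≤ w2 k := w2_wt.1 k
  unfold frq
  rw [Real.sqrt_le_left (by positivity), mul_pow,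
    Real.sq_sqrt (Finset.sum_nonneg fun i _ => sq_nonneg _), Finset.sum_mul]
  refine Finset.sum_le_sum fun i _ => ?_
  have hki : (k i : ℝ) ^ 2 ≤ w2 k := by
    unfold w2
    rw [← sq_abs (k i : ℝ)]
    apply pow_le_pow_left₀ (abs_nonneg _)
    have : |(k i : ℝ)| ≤ ∑ j, |(k j : ℝ)| :=
      Finset.single_le_sum (f := fun j => |(k j : ℝ)|) (fun j _ => abs_nonneg _)
        (Finset.mem_univ i)
    linarith
  have h1 : (Real.pi * k i / l i) ^ 2 = (Real.pi / l i) ^ 2 * (k i : ℝ) ^ 2 := by ring
  rw [h1]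
  apply mul_le_mul_of_nonneg_left _ (sq_nonneg _)
  nlinarith

theorem Sn_le (l : Fin N → ℝ) (c : (Fin N → ℤ) → ℝ) (hc : ∀ k, |c k| ≤ 1) (k : Fin N → ℤ)
    (x : Fin N → ℝ) : |Sn l c k x| ≤ 1 := by
  unfold Sn
  rw [abs_mul, Finset.abs_prod]
  have h1 : ∏ i, |Real.sin (Real.pi * k i / l i * x i)| ≤ 1 :=
    Finset.prod_le_one (fun i _ => abs_nonneg _) fun i _ => Real.abs_sin_le_one _
  have h0 : 0 ≤ ∏ i, |Real.sin (Real.pi * k i / l i * x i)| :=
    Finset.prod_nonneg fun i _ => abs_nonneg _
  exact mul_le_one₀ (hc k) h0 h1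

theorem Sn_zero (l : Fin N → ℝ) (c : (Fin N → ℤ) → ℝ) (hN : 1 ≤ N) (x : Fin N → ℝ) :
    Sn l c 0 x = 0 := by
  unfold Sn
  rw [Finset.prod_eq_zero (Finset.mem_univ (⟨0, hN⟩ : Fin N)), mul_zero]
  simp

theorem Sn_bdy (l : Fin N → ℝ) (hl : ∀ i, 0 < l i) (c : (Fin N → ℤ) → ℝ) (k : Fin N → ℤ)
    (x : Fin N → ℝ) (i : Fin N) (hx : x i = 0 ∨ x i = l i) : Sn l c k x = 0 := by
  unfold Sn
  rw [Finset.prod_eq_zero (Finset.mem_univ i), mul_zero]
  rcases hx with hx | hx
  · rw [hx, mul_zero, Real.sin_zero]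
  · rw [hx, div_mul_cancel₀ _ (hl i).ne', mul_comm]
    exact Real.sin_int_mul_pi (k i)

/-- The real convolution of the real parts. -/
def tau (z : (Fin N → ℤ) → ℝ → ℂ) (k : Fin N → ℤ) (t : ℝ) : ℝ :=
  ∑' h : (Fin N → ℤ) × (Fin N → ℤ), (z h.1 t).re * (z h.2 t).re * (z (k - h.1 - h.2) t).re

theorem T3_eq (z : (Fin N → ℤ) → ℝ → ℂ) (k : Fin N → ℤ) (t : ℝ) :
    T3 (fun q => (((z q t).re : ℝ) : ℂ)) (fun q => (((z q t).re : ℝ) : ℂ))
      (fun q => (((z q t).re : ℝ) : ℂ)) k = ((tau z k t : ℝ) : ℂ) := by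
  unfold T3 tau
  rw [Complex.ofReal_tsum]
  apply tsum_congr
  intro h
  push_cast
  rfl

/-- TOR: the solution of the equation. -/
theorem tor (hT3A : T3aStmt) (hSCD : ScdStmt) (hSCC : SccStmt) : TorStmt := by
  intro N l c T z d hS hN
  have hl := hS.hl
  have hc := hS.hc
  have hT := hS.hT
  -- `d` is nonnegative and bounds the `z k t`
  have hd0 : ∀ k, 0 ≤ d k := by
    intro k
    have h1 := hS.bd k (T + 1) (by linarith)
    have h2 : 0 < (T + 1) ^ (-(1 / 2) : ℝ) := Real.rpow_pos_of_pos (by linarith) _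
    by_contra h3
    push Not at h3
    have h4 : d k * (T + 1) ^ (-(1 / 2) : ℝ) < 0 := mul_neg_of_neg_of_pos h3 h2
    linarith [norm_nonneg (z k (T + 1))]
  have hzd : ∀ k, ∀ t > T, ‖z k t‖ ≤ d k := by
    intro k t ht
    refine (hS.bd k t ht).trans ?_
    have h2 : t ^ (-(1 / 2) : ℝ) ≤ 1 :=
      Real.rpow_le_one_of_one_le_of_nonpos (by linarith) (by norm_num)
    exact mul_le_of_le_one_right (hd0 k) h2
  have hre : ∀ k, ∀ t > T, |(z k t).re| ≤ d k := fun k t ht =>
    (Complex.abs_re_le_norm _).trans (hzd k t ht)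
  have him : ∀ k, ∀ t > T, |(z k t).im| ≤ d k := fun k t ht =>
    (Complex.abs_im_le_norm _).trans (hzd k t ht)
  -- the convolution of `d`
  have hSmd : Sm w2 d := by
    unfold Sm
    refine hS.hd.congr ?_
    intro k
    rw [Real.norm_eq_abs, abs_of_nonneg (hd0 k)]
  obtain ⟨hsum3, hSm3, -⟩ := hT3A (Fin N → ℤ) ℝ w2 d d d w2_wt hSmd hSmd hSmd
  have hsum3' : ∀ k, Summable fun h : (Fin N → ℤ) × (Fin N → ℤ) =>
      d h.1 * d h.2 * d (k - h.1 - h.2) := by
    intro k
    refine (hsum3 k).congr ?_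
    intro h
    simp only [Real.norm_eq_abs, abs_of_nonneg (hd0 _)]
  have hD3 : ∀ k, 0 ≤ T3 d d d k := by
    intro k
    exact tsum_nonneg fun h => mul_nonneg (mul_nonneg (hd0 _) (hd0 _)) (hd0 _)
  have hterm : ∀ k, ∀ t > T, ∀ h : (Fin N → ℤ) × (Fin N → ℤ),
      ‖(z h.1 t).re * (z h.2 t).re * (z (k - h.1 - h.2) t).re‖ ≤
        d h.1 * d h.2 * d (k - h.1 - h.2) := by
    intro k t ht h
    rw [Real.norm_eq_abs, abs_mul, abs_mul]
    exact mul_le_mul (mul_le_mul (hre _ t ht) (hre _ t ht) (abs_nonneg _) (hd0 _))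
      (hre _ t ht) (abs_nonneg _) (mul_nonneg (hd0 _) (hd0 _))
  have htau : ∀ k, ∀ t > T, |tau z k t| ≤ T3 d d d k := by
    intro k t ht
    unfold tau
    rw [← Real.norm_eq_abs]
    exact tsum_of_norm_bounded (hsum3' k).hasSum (hterm k t ht)
  -- the derivatives
  have hder : ∀ k, ∀ t > T, HasDerivAt (fun s => (z k s).re)
      (-(frq l k * (z k t).im) - tau z k t) t ∧
      HasDerivAt (fun s => (z k s).im) (frq l k * (z k t).re) t := by
    intro k t ht
    have h := hS.ode k t ht
    have e : rhs (frq l) (fun q => z q t) k = Complex.I * (frq l k : ℂ) * z k t -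
        ((tau z k t : ℝ) : ℂ) := by
      unfold rhs
      rw [T3_eq]
    rw [e] at h
    constructor
    · have h1 := (Complex.reCLM.hasFDerivAt.comp_hasDerivAt t h)
      have e1 : Complex.reCLM (Complex.I * (frq l k : ℂ) * z k t - ((tau z k t : ℝ) : ℂ)) =
          -(frq l k * (z k t).im) - tau z k t := by
        simp
      rw [e1] at h1
      exact h1
    · have h1 := (Complex.imCLM.hasFDerivAt.comp_hasDerivAt t h)
      have e1 : Complex.imCLM (Complex.I * (frq l k : ℂ) * z k t - ((tau z k t : ℝ) : ℂ)) =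
          frq l k * (z k t).re := by
        simp
      rw [e1] at h1
      exact h1
  -- the families
  set a' : (Fin N → ℤ) → ℝ → ℝ := fun k t => if k = 0 then 0 else (z k t).re with ha'
  set a'' : (Fin N → ℤ) → ℝ → ℝ := fun k t => if k = 0 then 0 else
    -(frq l k * (z k t).im) - tau z k t with ha''
  set L : ℝ := ∑ j, l j with hL
  have hL0 : 0 ≤ L := Finset.sum_nonneg fun j _ => (hl j).le
  set C1 : ℝ := Real.sqrt (∑ i, (Real.pi / l i) ^ 2) with hC1
  have hC10 : 0 ≤ C1 := Real.sqrt_nonneg _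
  set D : (Fin N → ℤ) → ℝ := fun k => (L + 1 + C1) * d k + T3 d d d k with hD
  have hw1 : ∀ k : Fin N → ℤ, 1 ≤ w2 k := w2_wt.1
  have hDsum : Summable fun k => D k * w2 k := by
    have h1 : Summable fun k => (L + 1 + C1) * (d k * w2 k) := hS.hd.mul_left _
    have h2 : Summable fun k => T3 d d d k * w2 k := by
      refine hSm3.congr ?_
      intro k
      rw [Real.norm_eq_abs, abs_of_nonneg (hD3 k)]
    refine (h1.add h2).congr ?_
    intro k
    simp only [hD]
    ring
  have hbd : ∀ k, ∀ t > T, |dsp l z k t| ≤ D k ∧ |a' k t| ≤ D k ∧ |a'' k t| ≤ D k * w2 k := by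
    intro k t ht
    have hDk : 0 ≤ D k := by
      simp only [hD]
      have := mul_nonneg (by positivity : 0 ≤ L + 1 + C1) (hd0 k)
      linarith [hD3 k]
    have hLd : 0 ≤ L * d k := mul_nonneg hL0 (hd0 k)
    have hCd : 0 ≤ C1 * d k := mul_nonneg hC10 (hd0 k)
    by_cases hk : k = 0
    · subst hk
      refine ⟨?_, ?_, ?_⟩
      · unfold dsp
        rw [frq_zero, div_zero, abs_zero]
        exact hDk
      · simp only [ha', if_true, abs_zero]
        exact hDk
      · simp only [ha'', if_true, abs_zero]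
        exact mul_nonneg hDk (by linarith [hw1 0])
    · refine ⟨?_, ?_, ?_⟩
      · unfold dsp
        obtain ⟨h1, h2⟩ := frq_low l hl k hk
        have h3 := frq_pos l hl k hk
        rw [abs_div, abs_of_pos h3, div_le_iff₀ h3]
        have h4 : 1 ≤ L * frq l k := by
          have := mul_le_mul_of_nonneg_left h2 h1.le
          rwa [mul_one_div_cancel h1.ne'] at this
        have h5 := him k t ht
        have h6 : d k ≤ d k * (L * frq l k) := le_mul_of_one_le_right (hd0 k) h4
        have h7 : L * d k * frq l k ≤ D k * frq l k := by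
          apply mul_le_mul_of_nonneg_right _ h3.le
          simp only [hD]
          nlinarith [hD3 k, hd0 k]
        nlinarith
      · simp only [ha', if_neg hk]
        have := hre k t ht
        simp only [hD]
        nlinarith [hD3 k]
      · simp only [ha'', if_neg hk]
        have h1 : |-(frq l k * (z k t).im) - tau z k t| ≤ frq l k * d k + T3 d d d k := by
          have h3 := frq_pos l hl k hk
          calc |-(frq l k * (z k t).im) - tau z k t|
              ≤ |-(frq l k * (z k t).im)| + |tau z k t| := abs_sub _ _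
            _ = frq l k * |(z k t).im| + |tau z k t| := by
                rw [abs_neg, abs_mul, abs_of_pos h3]
            _ ≤ frq l k * d k + T3 d d d k :=
                add_le_add (mul_le_mul_of_nonneg_left (him k t ht) h3.le) (htau k t ht)
        have h2 : frq l k * d k ≤ C1 * w2 k * d k :=
          mul_le_mul_of_nonneg_right (frq_le l k) (hd0 k)
        have h4 : T3 d d d k ≤ T3 d d d k * w2 k := le_mul_of_one_le_right (hD3 k) (hw1 k)
        have h5 : 0 ≤ (L + 1) * d k * w2 k :=
          mul_nonneg (mul_nonneg (by linarith) (hd0 k)) (by linarith [hw1 k])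
        calc _ ≤ _ := h1
          _ ≤ C1 * w2 k * d k + T3 d d d k * w2 k := by linarith
          _ ≤ D k * w2 k := by
            simp only [hD]
            nlinarith
  have hdd : ∀ k, ∀ t > T, HasDerivAt (dsp l z k) (a' k t) t ∧ HasDerivAt (a' k) (a'' k t) t := by
    intro k t ht
    obtain ⟨h1, h2⟩ := hder k t ht
    by_cases hk : k = 0
    · subst hk
      constructor
      · have e1 : dsp l z 0 = fun _ => (0 : ℝ) := by
          funext s
          unfold dsp
          rw [frq_zero, div_zero]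
        have e2 : a' 0 t = 0 := by simp only [ha', if_true]
        rw [e1, e2]
        exact hasDerivAt_const _ _
      · have e1 : a' 0 = fun _ => (0 : ℝ) := by
          funext s
          simp only [ha', if_true]
        have e2 : a'' 0 t = 0 := by simp only [ha'', if_true]
        rw [e1, e2]
        exact hasDerivAt_const _ _
    · have h3 := frq_pos l hl k hk
      constructor
      · have e1 : a' k t = frq l k * (z k t).re / frq l k := by
          simp only [ha', if_neg hk]
          field_simp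
        rw [e1]
        exact h2.div_const (frq l k)
      · have e1 : a' k = fun s => (z k s).re := by
          funext s
          simp only [ha', if_neg hk]
        have e2 : a'' k t = -(frq l k * (z k t).im) - tau z k t := by
          simp only [ha'', if_neg hk]
        rw [e1, e2]
        exact h1
  -- continuity of the second derivatives
  have hcre : ∀ k, ContinuousOn (fun s => (z k s).re) (Ioi T) := fun k t ht =>
    (hder k t ht).1.continuousAt.continuousWithinAt
  have hcim : ∀ k, ContinuousOn (fun s => (z k s).im) (Ioi T) := fun k t ht =>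
    (hder k t ht).2.continuousAt.continuousWithinAt
  have hctau : ∀ k, ContinuousOn (tau z k) (Ioi T) := by
    intro k
    unfold tau
    apply continuousOn_tsum (u := fun h : (Fin N → ℤ) × (Fin N → ℤ) =>
      d h.1 * d h.2 * d (k - h.1 - h.2))
    · intro h
      exact ((hcre h.1).mul (hcre h.2)).mul (hcre _)
    · exact hsum3' k
    · intro h t ht
      exact hterm k t ht h
  have hcont : ∀ k, ContinuousOn (a'' k) (Ioi T) := by
    intro k
    by_cases hk : k = 0
    · have e1 : a'' k = fun _ => (0 : ℝ) := by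
        funext s
        simp only [ha'', if_pos hk]
      rw [e1]
      exact continuousOn_const
    · have e1 : a'' k = fun s => -(frq l k * (z k s).im) - tau z k s := by
        funext s
        simp only [ha'', if_neg hk]
      rw [e1]
      exact ((continuousOn_const.mul (hcim k)).neg).sub (hctau k)
  refine ⟨hSCC N l c T (dsp l z) a' a'' D hl hc hDsum hbd hdd hcont, ?_⟩
  intro t ht x
  obtain ⟨hdt, hdtt, hdx⟩ := hSCD N l c T (dsp l z) a' a'' D hl hc hDsum hbd hdd t ht x
  have hSn0 : Sn l c 0 x = 0 := Sn_zero l c hN x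
  have hdt' : dt (ser l c (dsp l z)) t x = ∑' k, (z k t).re * Sn l c k x := by
    rw [hdt]
    apply tsum_congr
    intro k
    by_cases hk : k = 0
    · subst hk
      rw [hSn0, mul_zero, mul_zero]
    · simp only [ha', if_neg hk]
  refine ⟨?_, hdt', fun i => (hdx i).1, ?_⟩
  · rw [hdt', hS.mul t ht x, hdtt]
    have hτ : ∀ k, (T3 (fun q => (((z q t).re : ℝ) : ℂ)) (fun q => (((z q t).re : ℝ) : ℂ))
        (fun q => (((z q t).re : ℝ) : ℂ)) k).re = tau z k t := by
      intro k
      rw [T3_eq, Complex.ofReal_re]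
    simp only [hτ]
    have hxx : ∑ i, dxx i (ser l c (dsp l z) t) x =
        -∑ i, ∑' k, (Real.pi * k i / l i) ^ 2 * dsp l z k t * Sn l c k x := by
      rw [← Finset.sum_neg_distrib]
      exact Finset.sum_congr rfl fun i _ => (hdx i).2
    rw [hxx]
    have hSnle := Sn_le l c hc
    -- summability
    have hs1 : Summable fun k => a'' k t * Sn l c k x := by
      refine Summable.of_norm_bounded hDsum ?_
      intro k
      rw [Real.norm_eq_abs, abs_mul]
      have h1 := (hbd k t ht).2.2
      have h2 := hSnle k x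
      calc |a'' k t| * |Sn l c k x| ≤ D k * w2 k * 1 :=
            mul_le_mul h1 h2 (abs_nonneg _) ((abs_nonneg _).trans h1)
        _ = D k * w2 k := mul_one _
    have hs2 : ∀ i, Summable fun k : Fin N → ℤ =>
        (Real.pi * k i / l i) ^ 2 * dsp l z k t * Sn l c k x := by
      intro i
      refine Summable.of_norm_bounded (hDsum.mul_left ((Real.pi / l i) ^ 2)) ?_
      intro k
      rw [Real.norm_eq_abs, abs_mul, abs_mul, abs_of_nonneg (sq_nonneg _)]
      have h1 := (hbd k t ht).1
      have h2 := hSnle k x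
      have hki : (k i : ℝ) ^ 2 ≤ w2 k := by
        unfold w2
        rw [← sq_abs (k i : ℝ)]
        apply pow_le_pow_left₀ (abs_nonneg _)
        have : |(k i : ℝ)| ≤ ∑ j, |(k j : ℝ)| :=
          Finset.single_le_sum (f := fun j => |(k j : ℝ)|) (fun j _ => abs_nonneg _)
            (Finset.mem_univ i)
        linarith
      have h3 : (Real.pi * k i / l i) ^ 2 = (Real.pi / l i) ^ 2 * (k i : ℝ) ^ 2 := by ring
      rw [h3]
      have h4 : (Real.pi / l i) ^ 2 * (k i : ℝ) ^ 2 ≤ (Real.pi / l i) ^ 2 * w2 k :=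
        mul_le_mul_of_nonneg_left hki (sq_nonneg _)
      have h5 : 0 ≤ w2 k := by linarith [hw1 k]
      calc (Real.pi / l i) ^ 2 * (k i : ℝ) ^ 2 * |dsp l z k t| * |Sn l c k x|
          ≤ (Real.pi / l i) ^ 2 * w2 k * D k * 1 := by
            apply mul_le_mul _ h2 (abs_nonneg _)
            · exact mul_nonneg (mul_nonneg (sq_nonneg _) h5) ((abs_nonneg _).trans h1)
            · exact mul_le_mul h4 h1 (abs_nonneg _) (mul_nonneg (sq_nonneg _) h5)
        _ = (Real.pi / l i) ^ 2 * (D k * w2 k) := by ring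
    have hs3 : Summable fun k => tau z k t * Sn l c k x := by
      have h2' : Summable fun k => T3 d d d k * w2 k := by
        refine hSm3.congr ?_
        intro k
        rw [Real.norm_eq_abs, abs_of_nonneg (hD3 k)]
      refine Summable.of_norm_bounded h2' ?_
      intro k
      rw [Real.norm_eq_abs, abs_mul]
      have h1 := htau k t ht
      have h2 := hSnle k x
      calc |tau z k t| * |Sn l c k x| ≤ T3 d d d k * 1 :=
            mul_le_mul h1 h2 (abs_nonneg _) (hD3 k)
        _ ≤ T3 d d d k * w2 k := mul_le_mul_of_nonneg_left (hw1 k) (hD3 k)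
    have hswap : ∑ i, ∑' k : Fin N → ℤ,
        (Real.pi * k i / l i) ^ 2 * dsp l z k t * Sn l c k x =
        ∑' k : Fin N → ℤ, ∑ i, (Real.pi * k i / l i) ^ 2 * dsp l z k t * Sn l c k x :=
      (Summable.tsum_finsetSum fun i _ => hs2 i).symm
    have hs2' : Summable fun k : Fin N → ℤ =>
        ∑ i, (Real.pi * k i / l i) ^ 2 * dsp l z k t * Sn l c k x :=
      summable_sum fun i _ => hs2 i
    rw [hswap, sub_neg_eq_add, ← hs1.tsum_add hs2', ← (hs1.add hs2').tsum_add hs3]
    have hzero : ∀ k : Fin N → ℤ, a'' k t * Sn l c k x +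
        ∑ i, (Real.pi * k i / l i) ^ 2 * dsp l z k t * Sn l c k x +
        tau z k t * Sn l c k x = 0 := by
      intro k
      by_cases hk : k = 0
      · subst hk
        simp [hSn0]
      · have h3 := frq_pos l hl k hk
        have e1 : ∑ i, (Real.pi * k i / l i) ^ 2 * dsp l z k t * Sn l c k x =
            frq l k * (z k t).im * Sn l c k x := by
          rw [← Finset.sum_mul, ← Finset.sum_mul, ← frq_sq]
          unfold dsp
          field_simp
        rw [e1]
        simp only [ha'', if_neg hk]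
        ring
    simp only [hzero, tsum_zero]
  · intro i hi
    unfold ser
    have : ∀ k, dsp l z k t * Sn l c k x = 0 := by
      intro k
      rw [Sn_bdy l hl c k x i hi, mul_zero]
    simp only [this, tsum_zero]

end

end Pool.Agent.BOX.H80
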